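import Mathlib

/-!
# A spectral self-affine measure without a Hadamard triple

`R = diag (4, 3)` and `B = {(0,0), (1,0), (8,1), (9,1)}`. The projection of the self-affine measure
`μ (R, B)` to the first coordinate is the uniform measure on `[0,1] ∪ [2,3]`, which is spectral, and
`μ (R, B)` is carried by the graph of a function of the first coordinate, so that it is spectral
too. But `∑_b e (⟨R⁻¹ b, (k, l)⟩) = (1 + e (k / 4)) (1 + e (l / 3))` vanishes only for `k = 2` modulo
`4`, so that there are no three, let alone four, pairwise orthogonal characters.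
-/

set_option autoImplicit false

namespace Pool.Agent.L7h16.Spec

open MeasureTheory Matrix Set
open scoped ENNReal Real

/-- The fundamental interval with Lebesgue measure. -/
noncomputable abbrev lam : Measure ℝ := volume.restrict (Ico (0 : ℝ) 1)

/-- Completeness of the exponentials in `L²(0,1)`. -/
theorem complete01 {h : ℝ → ℂ} (hL : MemLp h 2 lam)
    (hz : ∀ n : ℤ, ∫ x, h x * Complex.exp (-(2 * π * Complex.I * ((n * x : ℝ) : ℂ))) ∂lam = 0) :
    h =ᵐ[lam] 0 := by
  have e0 : lam = volume.restrict (Ioc (0 : ℝ) 1) := restrict_Ico_eq_restrict_Ioc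
  rw [e0] at hL hz ⊢
  have hc : ∀ n : ℤ, fourierCoeffOn (zero_lt_one' ℝ) h n = 0 := by
    intro n
    rw [fourierCoeffOn_eq_integral, intervalIntegral.integral_of_le zero_le_one]
    have : ∫ x in Ioc (0 : ℝ) 1, fourier (-n) (x : AddCircle ((1 : ℝ) - 0)) • h x =
        ∫ x in Ioc (0 : ℝ) 1, h x * Complex.exp (-(2 * π * Complex.I * ((n * x : ℝ) : ℂ))) := by
      refine integral_congr_ae (Filter.Eventually.of_forall fun x => ?_)
      simp only [smul_eq_mul]
      rw [fourier_coe_apply, mul_comm]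
      congr 2
      push_cast
      ring
    rw [this, hz n, smul_zero]
  have hs := tsum_sq_fourierCoeffOn (f := h) (zero_lt_one' ℝ) hL
  simp_rw [hc] at hs
  simp only [norm_zero, ne_eq, OfNat.ofNat_ne_zero, not_false_eq_true, zero_pow, tsum_zero,
    sub_zero, inv_one, one_smul] at hs
  rw [intervalIntegral.integral_of_le zero_le_one] at hs
  have hint : Integrable (fun x => ‖h x‖ ^ 2) (volume.restrict (Ioc (0 : ℝ) 1)) :=
    hL.integrable_norm_pow (by norm_num)
  have h2 := (integral_eq_zero_iff_of_nonneg (fun x => by positivity) hint).1 hs.symm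
  filter_upwards [h2] with x hx
  simpa using hx

/-- `γ_j`. -/
noncomputable def gam (j : ℕ) (s : ℝ) : ℝ := (s + j) / 4

theorem measurable_gam (j : ℕ) : Measurable (gam j) := by unfold gam; fun_prop

theorem map_gam (j : ℕ) : lam.map (gam j) =
    (4 : ℝ≥0∞) • volume.restrict (Ico ((j : ℝ) / 4) ((j + 1 : ℝ) / 4)) := by
  ext A hA
  rw [Measure.map_apply (measurable_gam j) hA, Measure.restrict_apply (measurable_gam j hA),
    Measure.smul_apply, Measure.restrict_apply hA]
  have e1 : gam j ⁻¹' A ∩ Ico 0 1 = gam j ⁻¹' (A ∩ Ico ((j : ℝ) / 4) ((j + 1 : ℝ) / 4)) := by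
    ext s
    simp only [mem_inter_iff, mem_preimage, mem_Ico, gam]
    constructor
    · rintro ⟨h1, h2, h3⟩
      exact ⟨h1, by linarith, by linarith⟩
    · rintro ⟨h1, h2, h3⟩
      exact ⟨h1, by linarith, by linarith⟩
  rw [e1]
  have e2 : ∀ S : Set ℝ, volume (gam j ⁻¹' S) = 4 * volume S := by
    intro S
    have : gam j ⁻¹' S = (fun s : ℝ => (4 : ℝ)⁻¹ * s) ⁻¹' ((fun s : ℝ => s + (j : ℝ) / 4) ⁻¹' S) := by
      ext s
      simp only [mem_preimage, gam]
      have : (s + (j : ℝ)) / 4 = (4 : ℝ)⁻¹ * s + j / 4 := by ring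
      rw [this]
    rw [this, Real.volume_preimage_mul_left (by norm_num), measure_preimage_add_right]
    congr 1
    rw [inv_inv, abs_of_pos (by norm_num)]
    norm_num
  rw [e2, smul_eq_mul]

theorem split_Ico {a b c : ℝ} (h1 : a ≤ b) (h2 : b ≤ c) :
    (volume.restrict (Ico a c) : Measure ℝ) =
      volume.restrict (Ico a b) + volume.restrict (Ico b c) := by
  rw [← Measure.restrict_union _ measurableSet_Ico, Ico_union_Ico_eq_Ico h1 h2]
  rw [Set.disjoint_left]
  rintro x ⟨_, hx⟩ ⟨hx', _⟩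
  linarith

/-- The self-similarity of the Lebesgue measure. -/
theorem lam_eq : lam = (4 : ℝ≥0∞)⁻¹ •
    (lam.map (gam 0) + lam.map (gam 1) + lam.map (gam 2) + lam.map (gam 3)) := by
  rw [map_gam, map_gam, map_gam, map_gam, ← smul_add, ← smul_add, ← smul_add, smul_smul,
    ENNReal.inv_mul_cancel (by norm_num) (by norm_num), one_smul]
  push_cast
  have h1 : (volume.restrict (Ico ((0 : ℝ) / 4) ((0 + 1) / 4)) : Measure ℝ) +
      volume.restrict (Ico ((1 : ℝ) / 4) ((1 + 1) / 4)) = volume.restrict (Ico (0 : ℝ) (2 / 4)) := by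
    rw [split_Ico (a := 0) (b := 1 / 4) (c := 2 / 4) (by norm_num) (by norm_num)]
    norm_num
  have h2 : (volume.restrict (Ico ((2 : ℝ) / 4) ((2 + 1) / 4)) : Measure ℝ) +
      volume.restrict (Ico ((3 : ℝ) / 4) ((3 + 1) / 4)) = volume.restrict (Ico (2 / 4 : ℝ) 1) := by
    rw [split_Ico (a := 2 / 4) (b := 3 / 4) (c := 1) (by norm_num) (by norm_num)]
    norm_num
  rw [add_assoc (_ + _), h1, h2]
  exact split_Ico (by norm_num) (by norm_num)

/-- The terms of the function whose graph carries the measure. -/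
noncomputable def term (k : ℕ) (s : ℝ) : ℝ := (1 / 3 : ℝ) ^ (k + 1) * (⌊2 * Int.fract (4 ^ k * s)⌋ : ℝ)

theorem term_nonneg (k : ℕ) (s : ℝ) : 0 ≤ term k s := by
  unfold term
  have : 0 ≤ ⌊2 * Int.fract ((4 : ℝ) ^ k * s)⌋ :=
    Int.floor_nonneg.2 (by have := Int.fract_nonneg ((4 : ℝ) ^ k * s); linarith)
  have h : (0 : ℝ) ≤ (⌊2 * Int.fract ((4 : ℝ) ^ k * s)⌋ : ℝ) := by exact_mod_cast this
  positivity

theorem term_le (k : ℕ) (s : ℝ) : term k s ≤ (1 / 3 : ℝ) ^ (k + 1) := by
  unfold term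
  have : ⌊2 * Int.fract ((4 : ℝ) ^ k * s)⌋ < 2 :=
    Int.floor_lt.2 (by have := Int.fract_lt_one ((4 : ℝ) ^ k * s); push_cast; linarith)
  have h : (⌊2 * Int.fract ((4 : ℝ) ^ k * s)⌋ : ℝ) ≤ 1 := by
    exact_mod_cast (by omega : ⌊2 * Int.fract ((4 : ℝ) ^ k * s)⌋ ≤ 1)
  calc _ ≤ (1 / 3 : ℝ) ^ (k + 1) * 1 := mul_le_mul_of_nonneg_left h (by positivity)
    _ = _ := mul_one _

theorem summable_term (s : ℝ) : Summable fun k => term k s := by
  refine Summable.of_nonneg_of_le (fun k => term_nonneg k s) (fun k => term_le k s) ?_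
  have : Summable fun k : ℕ => (1 / 3 : ℝ) ^ k :=
    summable_geometric_of_lt_one (by norm_num) (by norm_num)
  exact (summable_nat_add_iff 1).2 this

/-- The function whose graph carries the measure. -/
noncomputable def G (s : ℝ) : ℝ := ∑' k, term k s

theorem measurable_term (k : ℕ) : Measurable (term k) := by
  unfold term
  have h1 : Measurable fun s : ℝ => 2 * Int.fract ((4 : ℝ) ^ k * s) :=
    (measurable_fract.comp (measurable_id.const_mul _)).const_mul _
  have h2 : Measurable fun s : ℝ => ⌊2 * Int.fract ((4 : ℝ) ^ k * s)⌋ := Int.measurable_floor.comp h1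
  have h3 : Measurable fun n : ℤ => (n : ℝ) := measurable_from_top
  exact (h3.comp h2).const_mul _

theorem measurable_G : Measurable G := by
  refine measurable_of_tendsto_metrizable (f := fun n s => ∑ k ∈ Finset.range n, term k s) ?_ ?_
  · intro n
    exact Finset.measurable_sum _ fun k _ => measurable_term k
  · rw [tendsto_pi_nhds]
    intro s
    exact (summable_term s).hasSum.tendsto_sum_nat

theorem G_gam {s : ℝ} (h0 : 0 ≤ s) (h1 : s < 1) (i u : ℕ) (hi : i < 2) (hu : u < 2) :
    G (gam (2 * i + u) s) = (i + G s) / 3 := by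
  have hi' : (i : ℝ) ≤ 1 := by exact_mod_cast (by omega : i ≤ 1)
  have hu' : (u : ℝ) ≤ 1 := by exact_mod_cast (by omega : u ≤ 1)
  have hi0 : (0 : ℝ) ≤ i := Nat.cast_nonneg _
  have hu0 : (0 : ℝ) ≤ u := Nat.cast_nonneg _
  unfold G
  rw [(summable_term _).tsum_eq_zero_add]
  have e0 : term 0 (gam (2 * i + u) s) = (1 / 3) * i := by
    unfold term gam
    have hf : Int.fract ((4 : ℝ) ^ 0 * ((s + ((2 * i + u : ℕ) : ℝ)) / 4)) =
        (s + ((2 * i + u : ℕ) : ℝ)) / 4 := by
      rw [pow_zero, one_mul, Int.fract_eq_self]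
      push_cast
      constructor
      · positivity
      · linarith
    rw [hf]
    have hfl : ⌊2 * ((s + ((2 * i + u : ℕ) : ℝ)) / 4)⌋ = (i : ℤ) := by
      rw [Int.floor_eq_iff]
      push_cast
      constructor <;> linarith
    rw [hfl]
    push_cast
    ring
  have e1 : ∀ k, term (k + 1) (gam (2 * i + u) s) = (1 / 3) * term k s := by
    intro k
    unfold term gam
    have hf : Int.fract ((4 : ℝ) ^ (k + 1) * ((s + ((2 * i + u : ℕ) : ℝ)) / 4)) =
        Int.fract ((4 : ℝ) ^ k * s) := by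
      have : (4 : ℝ) ^ (k + 1) * ((s + ((2 * i + u : ℕ) : ℝ)) / 4) =
          (4 : ℝ) ^ k * s + ((4 ^ k * (2 * i + u) : ℕ) : ℝ) := by
        push_cast; ring
      rw [this, Int.fract_add_natCast]
    rw [hf]
    ring
  rw [e0]
  simp_rw [e1]
  rw [tsum_mul_left]
  ring

/-- The two branches of the parametrization. -/
noncomputable def Phi (i : ℕ) (s : ℝ) : Fin 2 → ℝ := ![s + 2 * i, (i + G s) / 3]

theorem measurable_Phi (i : ℕ) : Measurable (Phi i) := by
  rw [measurable_pi_iff]
  intro a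
  fin_cases a
  · show Measurable fun s : ℝ => s + 2 * (i : ℝ)
    fun_prop
  · show Measurable fun s : ℝ => ((i : ℝ) + G s) / 3
    exact (measurable_G.const_add _).div_const _

/-- The self-affine measure. -/
noncomputable def mu : Measure (Fin 2 → ℝ) := (2 : ℝ≥0∞)⁻¹ • (lam.map (Phi 0) + lam.map (Phi 1))

instance : IsProbabilityMeasure lam := ⟨by simp [lam]⟩

instance : IsProbabilityMeasure mu := by
  constructor
  have h0 : IsProbabilityMeasure (lam.map (Phi 0)) :=
    Measure.isProbabilityMeasure_map (measurable_Phi 0).aemeasurable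
  have h1 : IsProbabilityMeasure (lam.map (Phi 1)) :=
    Measure.isProbabilityMeasure_map (measurable_Phi 1).aemeasurable
  rw [mu, Measure.smul_apply, Measure.add_apply, measure_univ, measure_univ, smul_eq_mul,
    one_add_one_eq_two]
  exact ENNReal.inv_mul_cancel (by norm_num) (by norm_num)

/-- The contraction which belongs to the digit `(u + 8 v, v)`. -/
noncomputable def phi (u v : ℕ) (x : Fin 2 → ℝ) : Fin 2 → ℝ := ![(x 0 + (u + 8 * v)) / 4, (x 1 + v) / 3]

theorem measurable_phi (u v : ℕ) : Measurable (phi u v) := by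
  rw [measurable_pi_iff]
  intro a
  fin_cases a
  · show Measurable fun x : Fin 2 → ℝ => (x 0 + ((u : ℝ) + 8 * v)) / 4
    fun_prop
  · show Measurable fun x : Fin 2 → ℝ => (x 1 + (v : ℝ)) / 3
    fun_prop

theorem phi_Phi {s : ℝ} (h0 : 0 ≤ s) (h1 : s < 1) (i u v : ℕ) (hi : i < 2) (hu : u < 2) :
    phi u v (Phi i s) = Phi v (gam (2 * i + u) s) := by
  funext a
  fin_cases a
  · show (s + 2 * (i : ℝ) + ((u : ℝ) + 8 * v)) / 4 = gam (2 * i + u) s + 2 * v
    unfold gam
    push_cast
    ring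
  · show (((i : ℝ) + G s) / 3 + (v : ℝ)) / 3 = ((v : ℝ) + G (gam (2 * i + u) s)) / 3
    rw [G_gam h0 h1 i u hi hu]
    ring

theorem map_phi (i u v : ℕ) (hi : i < 2) (hu : u < 2) :
    (lam.map (Phi i)).map (phi u v) = (lam.map (gam (2 * i + u))).map (Phi v) := by
  rw [Measure.map_map (measurable_phi u v) (measurable_Phi i),
    Measure.map_map (measurable_Phi v) (measurable_gam _)]
  refine Measure.map_congr ?_
  have : ∀ᵐ s ∂lam, s ∈ Ico (0 : ℝ) 1 := ae_restrict_mem measurableSet_Ico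
  filter_upwards [this] with s hs
  exact phi_Phi hs.1 hs.2 i u v hi hu

theorem map_mu (u v : ℕ) (hu : u < 2) : mu.map (phi u v) =
    (2 : ℝ≥0∞)⁻¹ • ((lam.map (gam u)).map (Phi v) + (lam.map (gam (2 + u))).map (Phi v)) := by
  rw [mu, Measure.map_smul, Measure.map_add _ _ (measurable_phi u v),
    map_phi 0 u v (by norm_num) hu, map_phi 1 u v (by norm_num) hu]
  norm_num

theorem mu_selfaffine : mu = (4 : ℝ≥0∞)⁻¹ •
    (mu.map (phi 0 0) + (mu.map (phi 1 0) + (mu.map (phi 0 1) + mu.map (phi 1 1)))) := by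
  have key : ∀ v : ℕ, lam.map (Phi v) = (4 : ℝ≥0∞)⁻¹ •
      ((lam.map (gam 0)).map (Phi v) + (lam.map (gam 1)).map (Phi v) +
        (lam.map (gam 2)).map (Phi v) + (lam.map (gam 3)).map (Phi v)) := by
    intro v
    conv_lhs => rw [lam_eq]
    rw [Measure.map_smul, Measure.map_add _ _ (measurable_Phi v),
      Measure.map_add _ _ (measurable_Phi v), Measure.map_add _ _ (measurable_Phi v)]
  rw [map_mu 0 0 (by norm_num), map_mu 1 0 (by norm_num), map_mu 0 1 (by norm_num),
    map_mu 1 1 (by norm_num)]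
  conv_lhs => rw [mu, key 0, key 1]
  simp only [← smul_add, smul_smul]
  rw [mul_comm]
  congr 1
  norm_num
  abel

end Pool.Agent.L7h16.Spec
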