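import Mathlib
import Pool.Agent.L7h16.SpecA

set_option autoImplicit false

namespace Pool.Agent.L7h16.Spec

open MeasureTheory Matrix Set
open scoped ENNReal Real

theorem integral_mu {g : (Fin 2 → ℝ) → ℂ} (hg : Integrable g mu) :
    ∫ x, g x ∂mu = (2 : ℂ)⁻¹ * (∫ s, g (Phi 0 s) ∂lam + ∫ s, g (Phi 1 s) ∂lam) := by
  have hg' : Integrable g (lam.map (Phi 0) + lam.map (Phi 1)) := by
    rw [mu] at hg
    exact (integrable_smul_measure (by norm_num) (by norm_num)).1 hg
  have h0 : Integrable g (lam.map (Phi 0)) := hg'.mono_measure (Measure.le_add_right le_rfl)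
  have h1 : Integrable g (lam.map (Phi 1)) := hg'.mono_measure (Measure.le_add_left le_rfl)
  rw [mu, integral_smul_measure, integral_add_measure h0 h1,
    integral_map (measurable_Phi 0).aemeasurable h0.aestronglyMeasurable,
    integral_map (measurable_Phi 1).aemeasurable h1.aestronglyMeasurable]
  rw [ENNReal.toReal_inv]
  simp
  ring

/-- The character with frequency `t`. -/
noncomputable def e (t : ℝ) : ℂ := Complex.exp (2 * π * Complex.I * (t : ℂ))

theorem e_add (s t : ℝ) : e (s + t) = e s * e t := by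
  unfold e; rw [← Complex.exp_add]; congr 1; push_cast; ring

theorem e_int (n : ℤ) : e n = 1 := by
  unfold e
  rw [Complex.exp_eq_one_iff]
  exact ⟨n, by push_cast; ring⟩

theorem e_zero : e 0 = 1 := by simpa using e_int 0

theorem norm_e (t : ℝ) : ‖e t‖ = 1 := by
  unfold e
  have : (2 * π * Complex.I * (t : ℂ)) = ((2 * π * t : ℝ) : ℂ) * Complex.I := by push_cast; ring
  rw [this, Complex.norm_exp_ofReal_mul_I]

theorem e_half : e (1 / 2) = -1 := by
  unfold e
  have : (2 * π * Complex.I * ((1 / 2 : ℝ) : ℂ)) = π * Complex.I := by push_cast; ring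
  rw [this, Complex.exp_pi_mul_I]

theorem e_neg_half : e (-(1 / 2)) = -1 := by
  unfold e
  have : (2 * π * Complex.I * ((-(1 / 2) : ℝ) : ℂ)) = -(π * Complex.I) := by push_cast; ring
  rw [this, Complex.exp_neg, Complex.exp_pi_mul_I]; norm_num

theorem continuous_e : Continuous e := by unfold e; fun_prop

/-- The spectrum. -/
def Lam : Set (Fin 2 → ℝ) := {l | l 1 = 0 ∧ ∃ n : ℤ, l 0 = n ∨ l 0 = n + 1 / 4}

theorem integral_e_lam {n : ℤ} (hn : n ≠ 0) : ∫ s, e (n * s) ∂lam = 0 := by
  have e0 : lam = volume.restrict (Ioc (0 : ℝ) 1) := restrict_Ico_eq_restrict_Ioc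
  rw [e0, ← intervalIntegral.integral_of_le zero_le_one]
  have hne : (2 * π * Complex.I * (n : ℂ)) ≠ 0 := by
    simp [hn, Real.pi_ne_zero]
  have : ∀ s : ℝ, e (n * s) = Complex.exp ((2 * π * Complex.I * (n : ℂ)) * s) := by
    intro s; unfold e; congr 1; push_cast; ring
  simp_rw [this]
  rw [integral_exp_mul_complex hne]
  have h1 : Complex.exp ((2 * π * Complex.I * (n : ℂ)) * (1 : ℝ)) = 1 := by
    rw [Complex.exp_eq_one_iff]; exact ⟨n, by push_cast; ring⟩
  rw [h1]
  simp

theorem integrable_e_comp {ν : Measure (Fin 2 → ℝ)} [IsProbabilityMeasure ν] {φ : (Fin 2 → ℝ) → ℝ}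
    (hφ : Measurable φ) : Integrable (fun x => e (φ x)) ν := by
  refine Integrable.of_bound (C := 1) ?_ (Filter.Eventually.of_forall fun x => (norm_e _).le)
  exact (continuous_e.measurable.comp hφ).aestronglyMeasurable

theorem integral_char (d : ℝ) (hd : (∃ n : ℤ, d = n) ∨ (∃ n : ℤ, d = n + 1 / 4) ∨
    (∃ n : ℤ, d = n - 1 / 4)) (hd0 : d ≠ 0) :
    ∫ x, e (d * x 0) ∂mu = 0 := by
  rw [integral_mu (integrable_e_comp (by fun_prop))]
  have h0 : ∀ s, e (d * Phi 0 s 0) = e (d * s) := by
    intro s; show e (d * (s + 2 * ((0 : ℕ) : ℝ))) = _; congr 1; push_cast; ring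
  have h1 : ∀ s, e (d * Phi 1 s 0) = e (d * 2) * e (d * s) := by
    intro s; show e (d * (s + 2 * ((1 : ℕ) : ℝ))) = _; rw [← e_add]; congr 1; push_cast; ring
  simp_rw [h0, h1]
  rw [integral_const_mul]
  rcases hd with ⟨n, rfl⟩ | ⟨n, rfl⟩ | ⟨n, rfl⟩
  · have hn : n ≠ 0 := by rintro rfl; simp at hd0
    rw [integral_e_lam hn]; simp
  · have : e (((n : ℝ) + 1 / 4) * 2) = -1 := by
      have h : ((n : ℝ) + 1 / 4) * 2 = ((2 * n : ℤ) : ℝ) + 1 / 2 := by push_cast; ring
      rw [h, e_add, e_int, e_half]; ring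
    rw [this]; ring
  · have : e (((n : ℝ) - 1 / 4) * 2) = -1 := by
      have h : ((n : ℝ) - 1 / 4) * 2 = ((2 * n : ℤ) : ℝ) + -(1 / 2) := by push_cast; ring
      rw [h, e_add, e_int, e_neg_half]; ring
    rw [this]; ring

theorem complete_mu {f : (Fin 2 → ℝ) → ℂ} (hf : MemLp f 2 mu)
    (hz : ∀ l ∈ Lam, ∫ x, f x * e (-(∑ i, l i * x i)) ∂mu = 0) : f =ᵐ[mu] 0 := by
  have hf' : MemLp f 2 (lam.map (Phi 0) + lam.map (Phi 1)) := by
    have := hf.smul_measure (c := 2) (by norm_num)
    rwa [mu, smul_smul, ENNReal.mul_inv_cancel (by norm_num) (by norm_num), one_smul] at this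
  have hf0 : MemLp f 2 (lam.map (Phi 0)) := hf'.mono_measure (Measure.le_add_right le_rfl)
  have hf1 : MemLp f 2 (lam.map (Phi 1)) := hf'.mono_measure (Measure.le_add_left le_rfl)
  have hp : MemLp (fun s => f (Phi 0 s)) 2 lam :=
    (memLp_map_measure_iff hf0.aestronglyMeasurable (measurable_Phi 0).aemeasurable).1 hf0
  have hq : MemLp (fun s => f (Phi 1 s)) 2 lam :=
    (memLp_map_measure_iff hf1.aestronglyMeasurable (measurable_Phi 1).aemeasurable).1 hf1
  have hfi : Integrable f mu := hf.integrable (by norm_num)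
  have hpi : Integrable (fun s => f (Phi 0 s)) lam := hp.integrable (by norm_num)
  have hqi : Integrable (fun s => f (Phi 1 s)) lam := hq.integrable (by norm_num)
  have hbd : ∀ {φ : ℝ → ℝ}, Measurable φ → ∀ {g : ℝ → ℂ}, Integrable g lam →
      Integrable (fun s => g s * e (φ s)) lam := by
    intro φ hφ g hg
    refine hg.mul_bdd (c := 1) (continuous_e.measurable.comp hφ).aestronglyMeasurable
      (Filter.Eventually.of_forall fun x => (norm_e _).le)
  -- the equations for the two branches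
  have hkey : ∀ d : ℝ, (∃ n : ℤ, d = n ∨ d = n + 1 / 4) →
      ∫ s, (f (Phi 0 s) + e (-(d * 2)) * f (Phi 1 s)) * e (-(d * s)) ∂lam = 0 := by
    intro d hd
    have h := hz ![d, 0] ⟨rfl, hd⟩
    have hsum : ∀ x : Fin 2 → ℝ, ∑ i, (![d, 0] : Fin 2 → ℝ) i * x i = d * x 0 := by
      intro x; simp
    simp_rw [hsum] at h
    have hint : Integrable (fun x : Fin 2 → ℝ => f x * e (-(d * x 0))) mu := by
      refine hfi.mul_bdd (c := 1) (continuous_e.measurable.comp (by fun_prop)).aestronglyMeasurable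
        (Filter.Eventually.of_forall fun x => (norm_e _).le)
    rw [integral_mu hint] at h
    have h0 : ∀ s, f (Phi 0 s) * e (-(d * Phi 0 s 0)) = f (Phi 0 s) * e (-(d * s)) := by
      intro s; congr 2
      show -(d * (s + 2 * ((0 : ℕ) : ℝ))) = _; push_cast; ring
    have h1 : ∀ s, f (Phi 1 s) * e (-(d * Phi 1 s 0)) =
        (e (-(d * 2)) * f (Phi 1 s)) * e (-(d * s)) := by
      intro s
      have : -(d * Phi 1 s 0) = -(d * 2) + -(d * s) := by
        show -(d * (s + 2 * ((1 : ℕ) : ℝ))) = _; push_cast; ring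
      rw [this, e_add]; ring
    simp_rw [h0, h1] at h
    rw [← integral_add (hbd (by fun_prop) hpi)
      (hbd (φ := fun s => -(d * s)) (by fun_prop) (hqi.const_mul _))] at h
    have h2 : (2 : ℂ)⁻¹ ≠ 0 := by norm_num
    have h3 := (mul_eq_zero.1 h).resolve_left h2
    rw [← h3]
    refine integral_congr_ae (Filter.Eventually.of_forall fun s => ?_)
    simp only []
    ring
  -- frequencies `n`
  have hA : (fun s => f (Phi 0 s) + f (Phi 1 s)) =ᵐ[lam] 0 := by
    refine complete01 (hp.add hq) fun n => ?_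
    have h := hkey n ⟨n, Or.inl rfl⟩
    have h2 : e (-((n : ℝ) * 2)) = 1 := by
      have : -((n : ℝ) * 2) = ((-(n * 2) : ℤ) : ℝ) := by push_cast; ring
      rw [this, e_int]
    rw [h2] at h
    simp only [one_mul] at h
    rw [← h]
    refine integral_congr_ae (Filter.Eventually.of_forall fun s => ?_)
    simp only [e]
    congr 2
    push_cast
    ring
  -- frequencies `n + 1/4`
  have hB : (fun s => (f (Phi 0 s) - f (Phi 1 s)) * e (-(s / 4))) =ᵐ[lam] 0 := by
    have hm : MemLp (fun s => (f (Phi 0 s) - f (Phi 1 s)) * e (-(s / 4))) 2 lam := by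
      refine (hp.sub hq).congr_norm ?_ ?_
      · exact (hp.sub hq).aestronglyMeasurable.mul
          (continuous_e.measurable.comp (by fun_prop)).aestronglyMeasurable
      · refine Filter.Eventually.of_forall fun s => ?_
        simp [norm_e]
    refine complete01 hm fun n => ?_
    have h := hkey (n + 1 / 4) ⟨n, Or.inr rfl⟩
    have h2 : e (-(((n : ℝ) + 1 / 4) * 2)) = -1 := by
      have : -(((n : ℝ) + 1 / 4) * 2) = ((-(n * 2) : ℤ) : ℝ) + -(1 / 2) := by push_cast; ring
      rw [this, e_add, e_int, e_neg_half]; ring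
    rw [h2] at h
    rw [← h]
    refine integral_congr_ae (Filter.Eventually.of_forall fun s => ?_)
    have h3 : e (-(((n : ℝ) + 1 / 4) * s)) = e (-(s / 4)) * e (-(n * s)) := by
      rw [← e_add]; congr 1; ring
    have h4 : Complex.exp (-(2 * π * Complex.I * ((n * s : ℝ) : ℂ))) = e (-(n * s)) := by
      unfold e; congr 1; push_cast; ring
    simp only [h3, h4]
    ring
  have hne : ∀ t, e t ≠ 0 := fun t => by
    have := norm_e t
    intro h; rw [h] at this; simp at this
  have hp0 : (fun s => f (Phi 0 s)) =ᵐ[lam] 0 := by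
    filter_upwards [hA, hB] with s h1 h2
    have h3 := (mul_eq_zero.1 h2).resolve_right (hne _)
    simp only [Pi.zero_apply] at h1 ⊢
    linear_combination (h1 + h3) / 2
  have hq0 : (fun s => f (Phi 1 s)) =ᵐ[lam] 0 := by
    filter_upwards [hA, hB] with s h1 h2
    have h3 := (mul_eq_zero.1 h2).resolve_right (hne _)
    simp only [Pi.zero_apply] at h1 ⊢
    linear_combination (h1 - h3) / 2
  have hz0 : f =ᵐ[lam.map (Phi 0)] 0 := by
    rw [← eLpNorm_eq_zero_iff hf0.aestronglyMeasurable (p := 2) (by norm_num),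
      eLpNorm_map_measure hf0.aestronglyMeasurable (measurable_Phi 0).aemeasurable]
    exact (eLpNorm_eq_zero_iff hp.aestronglyMeasurable (by norm_num)).2 hp0
  have hz1 : f =ᵐ[lam.map (Phi 1)] 0 := by
    rw [← eLpNorm_eq_zero_iff hf1.aestronglyMeasurable (p := 2) (by norm_num),
      eLpNorm_map_measure hf1.aestronglyMeasurable (measurable_Phi 1).aemeasurable]
    exact (eLpNorm_eq_zero_iff hq.aestronglyMeasurable (by norm_num)).2 hq0
  rw [mu]
  refine Measure.ae_smul_measure ?_ _
  rw [ae_add_measure_iff]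
  exact ⟨hz0, hz1⟩

end Pool.Agent.L7h16.Spec
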