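import Mathlib
import Pool.Agent.L7h16.SpecB

set_option autoImplicit false

namespace Pool.Agent.L7h16.Spec

open MeasureTheory Matrix Set
open scoped ENNReal Real

/-- The matrix. -/
def Rm : Matrix (Fin 2) (Fin 2) ℤ := !![4, 0; 0, 3]

/-- The digits. -/
def Bs : Finset (Fin 2 → ℤ) := {![0, 0], ![1, 0], ![8, 1], ![9, 1]}

theorem Rm_mulVec (v : Fin 2 → ℤ) : Rm *ᵥ v = ![4 * v 0, 3 * v 1] := by
  funext i
  fin_cases i <;> simp [Rm, Matrix.mulVec, dotProduct, Fin.sum_univ_two]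

theorem Rm_inv : (Rm.map (Int.cast : ℤ → ℝ))⁻¹ = !![1 / 4, 0; 0, 1 / 3] := by
  apply Matrix.inv_eq_right_inv
  ext i j
  fin_cases i <;> fin_cases j <;> simp [Rm, Matrix.mul_apply, Fin.sum_univ_two]

theorem inv_mulVec (x : Fin 2 → ℝ) :
    (Rm.map (Int.cast : ℤ → ℝ))⁻¹ *ᵥ x = ![x 0 / 4, x 1 / 3] := by
  rw [Rm_inv]
  funext i
  fin_cases i
  · simp [Matrix.mulVec, dotProduct, Fin.sum_univ_two]; ring
  · simp [Matrix.mulVec, dotProduct, Fin.sum_univ_two]; ring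

theorem Bs_card : Bs.card = 4 := by decide

theorem mem_Bs {b : Fin 2 → ℤ} (hb : b ∈ Bs) : b = ![0, 0] ∨ b = ![1, 0] ∨ b = ![8, 1] ∨ b = ![9, 1] := by
  simpa [Bs] using hb

theorem sum_Bs {M : Type*} [AddCommMonoid M] (g : (Fin 2 → ℤ) → M) :
    ∑ b ∈ Bs, g b = g ![0, 0] + (g ![1, 0] + (g ![8, 1] + g ![9, 1])) := by
  unfold Bs
  rw [Finset.sum_insert (by decide), Finset.sum_insert (by decide), Finset.sum_insert (by decide),
    Finset.sum_singleton]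

theorem simple : ∀ b ∈ Bs, ∀ b' ∈ Bs, b ≠ b' → ¬ ∃ v : Fin 2 → ℤ, Rm *ᵥ v = b - b' := by
  rintro b hb b' hb' hne ⟨v, hv⟩
  rw [Rm_mulVec] at hv
  have h0 := congrFun hv 0
  have h1 := congrFun hv 1
  rcases mem_Bs hb with rfl | rfl | rfl | rfl <;> rcases mem_Bs hb' with rfl | rfl | rfl | rfl <;>
    simp at h0 h1 hne <;> omega

theorem expanding : ∀ z : ℂ, (Rm.map (Int.cast : ℤ → ℂ)).charpoly.IsRoot z → 1 < ‖z‖ := by
  intro z hz
  have h : (Rm.map (Int.cast : ℤ → ℂ)).charpoly.eval z = (z - 4) * (z - 3) := by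
    rw [Matrix.charpoly_fin_two]
    simp [Rm, Matrix.trace, Matrix.det_fin_two, Fin.sum_univ_two]
    ring
  rw [Polynomial.IsRoot, h] at hz
  rcases mul_eq_zero.1 hz with h | h
  · have : z = 4 := by linear_combination h
    rw [this]; norm_num
  · have : z = 3 := by linear_combination h
    rw [this]; norm_num

theorem closure_top : AddSubgroup.closure {v : Fin 2 → ℤ | ∃ k : ℕ, ∃ b ∈ Bs, v = (Rm ^ k) *ᵥ b} = ⊤ := by
  rw [eq_top_iff]
  intro v _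
  have h1 : (![1, 0] : Fin 2 → ℤ) ∈ AddSubgroup.closure
      {v : Fin 2 → ℤ | ∃ k : ℕ, ∃ b ∈ Bs, v = (Rm ^ k) *ᵥ b} :=
    AddSubgroup.subset_closure ⟨0, ![1, 0], by decide, by simp⟩
  have h2 : (![8, 1] : Fin 2 → ℤ) ∈ AddSubgroup.closure
      {v : Fin 2 → ℤ | ∃ k : ℕ, ∃ b ∈ Bs, v = (Rm ^ k) *ᵥ b} :=
    AddSubgroup.subset_closure ⟨0, ![8, 1], by decide, by simp⟩
  have e : v = (v 0 - 8 * v 1) • (![1, 0] : Fin 2 → ℤ) + (v 1) • (![8, 1] : Fin 2 → ℤ) := by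
    funext i
    fin_cases i
    · simp; ring
    · simp
  rw [e]
  exact add_mem (zsmul_mem h1 _) (zsmul_mem h2 _)

theorem selfaffine' : mu = ((Bs.card : ℝ≥0∞)⁻¹) • ∑ b ∈ Bs,
    mu.map (fun x => (Rm.map (Int.cast : ℤ → ℝ))⁻¹ *ᵥ (x + fun i => (b i : ℝ))) := by
  rw [sum_Bs, Bs_card]
  have e : ∀ (u v : ℕ) (b : Fin 2 → ℤ), b = ![(u : ℤ) + 8 * v, v] →
      (fun x : Fin 2 → ℝ => (Rm.map (Int.cast : ℤ → ℝ))⁻¹ *ᵥ (x + fun i => (b i : ℝ))) = phi u v := by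
    intro u v b hb
    funext x
    rw [inv_mulVec, hb]
    unfold phi
    simp
  rw [e 0 0 ![0, 0] (by simp), e 1 0 ![1, 0] (by simp), e 0 1 ![8, 1] (by simp),
    e 1 1 ![9, 1] (by simp)]
  exact mu_selfaffine

theorem spectral : ∃ Λ : Set (Fin 2 → ℝ),
    (∀ l ∈ Λ, ∀ l' ∈ Λ,
      (l = l' → ∫ x, Complex.exp (2 * π * Complex.I * ((∑ i, (l i - l' i) * x i : ℝ) : ℂ)) ∂mu = 1) ∧
      (l ≠ l' → ∫ x, Complex.exp (2 * π * Complex.I * ((∑ i, (l i - l' i) * x i : ℝ) : ℂ)) ∂mu = 0)) ∧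
    (∀ f : (Fin 2 → ℝ) → ℂ, MemLp f 2 mu →
      (∀ l ∈ Λ, ∫ x, f x * Complex.exp (-(2 * π * Complex.I * ((∑ i, l i * x i : ℝ) : ℂ))) ∂mu = 0) →
      f =ᵐ[mu] 0) := by
  refine ⟨Lam, ?_, ?_⟩
  · intro l hl l' hl'
    constructor
    · rintro rfl
      simp
    · intro hne
      have h0 : l 0 - l' 0 ≠ 0 := by
        intro h
        apply hne
        funext i
        fin_cases i
        · exact sub_eq_zero.1 h
        · show l 1 = l' 1
          rw [hl.1, hl'.1]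
      have hd : (∃ n : ℤ, l 0 - l' 0 = n) ∨ (∃ n : ℤ, l 0 - l' 0 = n + 1 / 4) ∨
          (∃ n : ℤ, l 0 - l' 0 = n - 1 / 4) := by
        obtain ⟨n, hn⟩ := hl.2
        obtain ⟨m, hm⟩ := hl'.2
        rcases hn with hn | hn <;> rcases hm with hm | hm
        · left; exact ⟨n - m, by rw [hn, hm]; push_cast; ring⟩
        · right; right; exact ⟨n - m, by rw [hn, hm]; push_cast; ring⟩
        · right; left; exact ⟨n - m, by rw [hn, hm]; push_cast; ring⟩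
        · left; exact ⟨n - m, by rw [hn, hm]; push_cast; ring⟩
      have h := integral_char _ hd h0
      rw [← h]
      refine integral_congr_ae (Filter.Eventually.of_forall fun x => ?_)
      simp only [e]
      congr 3
      rw [Fin.sum_univ_two, hl.1, hl'.1]
      ring
  · intro f hf hz
    refine complete_mu hf fun l hl => ?_
    rw [← hz l hl]
    refine integral_congr_ae (Filter.Eventually.of_forall fun x => ?_)
    simp only [e]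
    congr 2
    push_cast
    ring

theorem no_hadamard : ¬ ∃ L : Finset (Fin 2 → ℤ), L.card = Bs.card ∧
    ∀ l ∈ L, ∀ l' ∈ L,
      (l = l' → ∑ b ∈ Bs, Complex.exp (2 * π * Complex.I *
          ((∑ i, ((Rm.map (Int.cast : ℤ → ℝ))⁻¹ *ᵥ (fun j => (b j : ℝ))) i * ((l i : ℝ) - (l' i : ℝ)) : ℝ) : ℂ))
          = (Bs.card : ℂ)) ∧
      (l ≠ l' → ∑ b ∈ Bs, Complex.exp (2 * π * Complex.I *
          ((∑ i, ((Rm.map (Int.cast : ℤ → ℝ))⁻¹ *ᵥ (fun j => (b j : ℝ))) i * ((l i : ℝ) - (l' i : ℝ)) : ℝ) : ℂ))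
          = 0) := by
  rintro ⟨L, hL, h⟩
  have key : ∀ l ∈ L, ∀ l' ∈ L, l ≠ l' → (l 0 - l' 0) % 4 = 2 := by
    intro l hl l' hl' hne
    have h1 := (h l hl l' hl').2 hne
    rw [sum_Bs] at h1
    simp only [inv_mulVec, Fin.sum_univ_two] at h1
    set k : ℤ := l 0 - l' 0 with hk
    set m : ℤ := l 1 - l' 1 with hm
    have hk' : (l 0 : ℝ) - l' 0 = k := by rw [hk]; push_cast; ring
    have hm' : (l 1 : ℝ) - l' 1 = m := by rw [hm]; push_cast; ring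
    rw [hk', hm'] at h1
    have h2 : (1 + e ((k : ℝ) / 4)) * (1 + e ((m : ℝ) / 3)) = 0 := by
      rw [← h1]
      have e1 : e ((8 : ℝ) / 4 * k) = 1 := by
        have : ((8 : ℝ) / 4 * k) = ((2 * k : ℤ) : ℝ) := by push_cast; ring
        rw [this, e_int]
      have e2 : e ((9 : ℝ) / 4 * k) = e ((k : ℝ) / 4) := by
        have : ((9 : ℝ) / 4 * k) = ((2 * k : ℤ) : ℝ) + (k : ℝ) / 4 := by push_cast; ring
        rw [this, e_add, e_int, one_mul]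
      have f0 : Complex.exp (2 * π * Complex.I * (((![((![0, 0] : Fin 2 → ℤ) 0 : ℝ) / 4,
          ((![0, 0] : Fin 2 → ℤ) 1 : ℝ) / 3] : Fin 2 → ℝ) 0 * (k : ℝ) + (![((![0, 0] : Fin 2 → ℤ) 0 : ℝ) / 4,
          ((![0, 0] : Fin 2 → ℤ) 1 : ℝ) / 3] : Fin 2 → ℝ) 1 * (m : ℝ) : ℝ) : ℂ)) = 1 := by
        simp
      have f1 : Complex.exp (2 * π * Complex.I * (((![((![1, 0] : Fin 2 → ℤ) 0 : ℝ) / 4,
          ((![1, 0] : Fin 2 → ℤ) 1 : ℝ) / 3] : Fin 2 → ℝ) 0 * (k : ℝ) + (![((![1, 0] : Fin 2 → ℤ) 0 : ℝ) / 4,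
          ((![1, 0] : Fin 2 → ℤ) 1 : ℝ) / 3] : Fin 2 → ℝ) 1 * (m : ℝ) : ℝ) : ℂ)) = e ((k : ℝ) / 4) := by
        unfold e
        congr 3
        simp
        ring
      have f2 : Complex.exp (2 * π * Complex.I * (((![((![8, 1] : Fin 2 → ℤ) 0 : ℝ) / 4,
          ((![8, 1] : Fin 2 → ℤ) 1 : ℝ) / 3] : Fin 2 → ℝ) 0 * (k : ℝ) + (![((![8, 1] : Fin 2 → ℤ) 0 : ℝ) / 4,
          ((![8, 1] : Fin 2 → ℤ) 1 : ℝ) / 3] : Fin 2 → ℝ) 1 * (m : ℝ) : ℝ) : ℂ)) = e ((m : ℝ) / 3) := by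
        have : e ((m : ℝ) / 3) = e ((8 : ℝ) / 4 * k + (m : ℝ) / 3) := by rw [e_add, e1, one_mul]
        rw [this]
        unfold e
        congr 3
        simp
        ring
      have f3 : Complex.exp (2 * π * Complex.I * (((![((![9, 1] : Fin 2 → ℤ) 0 : ℝ) / 4,
          ((![9, 1] : Fin 2 → ℤ) 1 : ℝ) / 3] : Fin 2 → ℝ) 0 * (k : ℝ) + (![((![9, 1] : Fin 2 → ℤ) 0 : ℝ) / 4,
          ((![9, 1] : Fin 2 → ℤ) 1 : ℝ) / 3] : Fin 2 → ℝ) 1 * (m : ℝ) : ℝ) : ℂ)) =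
          e ((k : ℝ) / 4) * e ((m : ℝ) / 3) := by
        have : e ((k : ℝ) / 4) * e ((m : ℝ) / 3) = e ((9 : ℝ) / 4 * k + (m : ℝ) / 3) := by
          rw [e_add, e2]
        rw [this]
        unfold e
        congr 3
        simp
        ring
      rw [f0, f1, f2, f3]
      ring
    have h3 : 1 + e ((m : ℝ) / 3) ≠ 0 := by
      intro hcon
      have h4 : e ((m : ℝ) / 3) = -1 := by linear_combination hcon
      have h5 : e ((m : ℝ) / 3) ^ 3 = 1 := by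
        have : e ((m : ℝ) / 3) ^ 3 = e (m : ℝ) := by
          have e3 : (m : ℝ) = (m : ℝ) / 3 + ((m : ℝ) / 3 + (m : ℝ) / 3) := by ring
          conv_rhs => rw [e3, e_add, e_add]
          ring
        rw [this, e_int]
      rw [h4] at h5
      norm_num at h5
    have h6 := (mul_eq_zero.1 h2).resolve_right h3
    have h7 : e ((k : ℝ) / 4) = -1 := by linear_combination h6
    -- `k` is even and not a multiple of `4`
    have hcases : k % 4 = 0 ∨ k % 4 = 1 ∨ k % 4 = 2 ∨ k % 4 = 3 := by omega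
    have hdecomp : (k : ℝ) / 4 = ((k / 4 : ℤ) : ℝ) + ((k % 4 : ℤ) : ℝ) / 4 := by
      have : k = 4 * (k / 4) + k % 4 := (Int.mul_ediv_add_emod k 4).symm
      have h8 : (k : ℝ) = 4 * ((k / 4 : ℤ) : ℝ) + ((k % 4 : ℤ) : ℝ) := by exact_mod_cast this
      rw [h8]; ring
    rw [hdecomp, e_add, e_int, one_mul] at h7
    rcases hcases with h9 | h9 | h9 | h9
    · rw [h9] at h7
      simp [e_zero] at h7
      norm_num at h7
    · rw [h9] at h7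
      exfalso
      have h10 : e (((1 : ℤ) : ℝ) / 4) ^ 2 = -1 := by
        have : ((1 : ℤ) : ℝ) / 4 + ((1 : ℤ) : ℝ) / 4 = 1 / 2 := by norm_num
        rw [sq, ← e_add, this, e_half]
      rw [h7] at h10
      norm_num at h10
    · exact h9
    · rw [h9] at h7
      exfalso
      have h10 : e (((3 : ℤ) : ℝ) / 4) ^ 2 = -1 := by
        have : ((3 : ℤ) : ℝ) / 4 + ((3 : ℤ) : ℝ) / 4 = ((1 : ℤ) : ℝ) + 1 / 2 := by norm_num
        rw [sq, ← e_add, this, e_add, e_int, e_half]; ring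
      rw [h7] at h10
      norm_num at h10
  have h3 : 2 < L.card := by rw [hL, Bs_card]; norm_num
  obtain ⟨a, ha, b, hb, c, hc, hab, hac, hbc⟩ := Finset.two_lt_card.1 h3
  have k1 := key a ha b hb hab
  have k2 := key b hb c hc hbc
  have k3 := key a ha c hc hac
  omega

theorem main : ¬ (∀ (d : ℕ), 1 ≤ d → ∀ (R : Matrix (Fin d) (Fin d) ℤ) (B : Finset (Fin d → ℤ)),
    (∀ z : ℂ, (R.map (Int.cast : ℤ → ℂ)).charpoly.IsRoot z → 1 < ‖z‖) →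
    (∀ b ∈ B, ∀ b' ∈ B, b ≠ b' → ¬ ∃ v : Fin d → ℤ, R *ᵥ v = b - b') →
    2 ≤ B.card → (B.card : ℤ) < |R.det| → (0 : Fin d → ℤ) ∈ B →
    AddSubgroup.closure {v : Fin d → ℤ | ∃ k : ℕ, ∃ b ∈ B, v = (R ^ k) *ᵥ b} = ⊤ →
    ∀ μ : Measure (Fin d → ℝ), IsProbabilityMeasure μ →
      μ = ((B.card : ℝ≥0∞)⁻¹) • ∑ b ∈ B,
            μ.map (fun x => (R.map (Int.cast : ℤ → ℝ))⁻¹ *ᵥ (x + fun i => (b i : ℝ))) →
      (∃ Λ : Set (Fin d → ℝ),
        (∀ l ∈ Λ, ∀ l' ∈ Λ,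
          (l = l' → ∫ x, Complex.exp (2 * π * Complex.I * ((∑ i, (l i - l' i) * x i : ℝ) : ℂ)) ∂μ = 1) ∧
          (l ≠ l' → ∫ x, Complex.exp (2 * π * Complex.I * ((∑ i, (l i - l' i) * x i : ℝ) : ℂ)) ∂μ = 0)) ∧
        (∀ f : (Fin d → ℝ) → ℂ, MemLp f 2 μ →
          (∀ l ∈ Λ, ∫ x, f x * Complex.exp (-(2 * π * Complex.I * ((∑ i, l i * x i : ℝ) : ℂ))) ∂μ = 0) →
          f =ᵐ[μ] 0)) →
      ∃ L : Finset (Fin d → ℤ), L.card = B.card ∧
        ∀ l ∈ L, ∀ l' ∈ L,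
          (l = l' → ∑ b ∈ B, Complex.exp (2 * π * Complex.I *
              ((∑ i, ((R.map (Int.cast : ℤ → ℝ))⁻¹ *ᵥ (fun j => (b j : ℝ))) i * ((l i : ℝ) - (l' i : ℝ)) : ℝ) : ℂ))
              = (B.card : ℂ)) ∧
          (l ≠ l' → ∑ b ∈ B, Complex.exp (2 * π * Complex.I *
              ((∑ i, ((R.map (Int.cast : ℤ → ℝ))⁻¹ *ᵥ (fun j => (b j : ℝ))) i * ((l i : ℝ) - (l' i : ℝ)) : ℝ) : ℂ))
              = 0)) := by
  intro h
  refine no_hadamard (h 2 (by norm_num) Rm Bs expanding simple (by rw [Bs_card]; norm_num) ?_ ?_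
    closure_top mu inferInstance selfaffine' spectral)
  · rw [Bs_card, Rm, Matrix.det_fin_two_of]; norm_num
  · have : (0 : Fin 2 → ℤ) = ![0, 0] := by funext i; fin_cases i <;> rfl
    rw [this]; decide

end Pool.Agent.L7h16.Spec
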