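import Mathlib

/-!
# The pattern `a, b, a (b + 1)` is partition regular

A set `S` of positive integers is null if for every `ε > 0` there are positive integers `f i`
(`i` in a finite nonempty index set) such that for every `m` at most a proportion `ε` of the `m * f i`
is in `S` (that is, the upper Banach density of `S` in the multiplicative semigroup is zero).

* `exists_seq`: if to every finite history a null set is assigned, then there are arbitrarily long
  sequences `0 = m 0 < m 1 < ... < m r` such that no difference `m j - m i` is in the null set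
  assigned to the history `m 1, ..., m i`. (Induction on `r`: replace all the elements by their
  products with one more variable, which runs through the `f i`.)
* `exists_chain`: for every null set `S` there are arbitrarily long chains `y 0 ∣ y 1 ∣ ... ∣ y r`
  such that `y j / y i - 1` is not in `S` for `i < j`.
* The union of the null colour classes is null, so that in the chain all `y j / y i - 1` have colours
  which are not null. By the theorem of Ramsey we may assume that they have the same colour. Two
  of the elements `m * y i` of a suitable multiple of a long chain have this colour.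
-/

set_option autoImplicit false

namespace Pool.Agent.L7h16.TransProd

open Finset

/-- Multiplicative upper Banach density zero. -/
def Null (S : Set ℕ) : Prop :=
  ∀ k : ℕ, ∃ (ι : Type) (_ : Fintype ι) (_ : Nonempty ι) (f : ι → ℕ), (∀ i, 0 < f i) ∧
    ∀ m : ℕ, 0 < m → (k + 1) * Nat.card {i : ι // m * f i ∈ S} ≤ Fintype.card ι

theorem Null.mono {S T : Set ℕ} (hT : Null T) (h : S ⊆ T) : Null S := by
  intro k
  obtain ⟨ι, _, hι, f, hf, hm⟩ := hT k
  refine ⟨ι, inferInstance, hι, f, hf, fun m hmp => le_trans (Nat.mul_le_mul_left _ ?_) (hm m hmp)⟩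
  exact Nat.card_le_card_of_injective (fun x : {i : ι // m * f i ∈ S} =>
    (⟨x.1, h x.2⟩ : {i : ι // m * f i ∈ T})) (fun a b hab => by
      apply Subtype.ext; exact congrArg (fun z => z.1) hab)

theorem Null.union {S T : Set ℕ} (hS : Null S) (hT : Null T) : Null (S ∪ T) := by
  classical
  intro k
  obtain ⟨ι, _, hι, f, hf, hfm⟩ := hS (2 * k + 1)
  obtain ⟨κ, _, hκ, g, hg, hgm⟩ := hT (2 * k + 1)
  refine ⟨ι × κ, inferInstance, inferInstance, fun p => f p.1 * g p.2,
    fun p => Nat.mul_pos (hf _) (hg _), fun m hm => ?_⟩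
  have key : Nat.card {p : ι × κ // m * (f p.1 * g p.2) ∈ S ∪ T} ≤
      (∑ j : κ, Nat.card {i : ι // (m * g j) * f i ∈ S}) +
      (∑ i : ι, Nat.card {j : κ // (m * f i) * g j ∈ T}) := by
    simp only [Nat.card_eq_fintype_card, Fintype.card_subtype]
    calc #{p : ι × κ | m * (f p.1 * g p.2) ∈ S ∪ T}
        ≤ #((Finset.univ.filter fun p : ι × κ => (m * g p.2) * f p.1 ∈ S) ∪
            (Finset.univ.filter fun p : ι × κ => (m * f p.1) * g p.2 ∈ T)) := by
          apply Finset.card_le_card
          intro p hp
          simp only [Finset.mem_filter, Finset.mem_univ, true_and, Finset.mem_union] at hp ⊢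
          rcases hp with hp | hp
          · left
            have e : m * g p.2 * f p.1 = m * (f p.1 * g p.2) := by ring
            rwa [e]
          · right
            have e : m * f p.1 * g p.2 = m * (f p.1 * g p.2) := by ring
            rwa [e]
      _ ≤ #{p : ι × κ | (m * g p.2) * f p.1 ∈ S} + #{p : ι × κ | (m * f p.1) * g p.2 ∈ T} :=
          Finset.card_union_le _ _
      _ = _ := by
          congr 1
          · rw [Finset.card_eq_sum_card_fiberwise (f := fun p : ι × κ => p.2) (t := Finset.univ)
              (by intro x _; simp)]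
            refine Finset.sum_congr rfl fun j _ => ?_
            apply Finset.card_bij (fun p _ => p.1)
            · intro p hp
              simp only [Finset.mem_filter, Finset.mem_univ, true_and] at hp ⊢
              rw [← hp.2]; exact hp.1
            · intro p hp q hq h
              simp only [Finset.mem_filter, Finset.mem_univ, true_and] at hp hq
              exact Prod.ext h (hp.2.trans hq.2.symm)
            · intro i hi
              simp only [Finset.mem_filter, Finset.mem_univ, true_and] at hi
              exact ⟨(i, j), by simp [hi], rfl⟩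
          · rw [Finset.card_eq_sum_card_fiberwise (f := fun p : ι × κ => p.1) (t := Finset.univ)
              (by intro x _; simp)]
            refine Finset.sum_congr rfl fun i _ => ?_
            apply Finset.card_bij (fun p _ => p.2)
            · intro p hp
              simp only [Finset.mem_filter, Finset.mem_univ, true_and] at hp ⊢
              rw [← hp.2]; exact hp.1
            · intro p hp q hq h
              simp only [Finset.mem_filter, Finset.mem_univ, true_and] at hp hq
              exact Prod.ext (hp.2.trans hq.2.symm) h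
            · intro j hj
              simp only [Finset.mem_filter, Finset.mem_univ, true_and] at hj
              exact ⟨(i, j), by simp [hj], rfl⟩
  have h1 : (2 * k + 1 + 1) * (∑ j : κ, Nat.card {i : ι // (m * g j) * f i ∈ S}) ≤
      Fintype.card κ * Fintype.card ι := by
    rw [Finset.mul_sum]
    calc _ ≤ ∑ _j : κ, Fintype.card ι :=
          Finset.sum_le_sum fun j _ => hfm _ (Nat.mul_pos hm (hg j))
      _ = _ := by simp
  have h2 : (2 * k + 1 + 1) * (∑ i : ι, Nat.card {j : κ // (m * f i) * g j ∈ T}) ≤
      Fintype.card ι * Fintype.card κ := by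
    rw [Finset.mul_sum]
    calc _ ≤ ∑ _i : ι, Fintype.card κ :=
          Finset.sum_le_sum fun i _ => hgm _ (Nat.mul_pos hm (hf i))
      _ = _ := by simp
  rw [Fintype.card_prod]
  nlinarith [key, h1, h2]

theorem null_empty : Null ∅ := by
  intro k
  refine ⟨Unit, inferInstance, inferInstance, fun _ => 1, fun _ => Nat.one_pos, fun m _ => ?_⟩
  simp

theorem null_biUnion {α : Type*} (s : Finset α) (V : α → Set ℕ) (h : ∀ a ∈ s, Null (V a)) :
    Null (⋃ a ∈ s, V a) := by
  classical
  induction s using Finset.induction_on with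
  | empty => simpa using null_empty
  | insert a s ha ih =>
    rw [Finset.set_biUnion_insert]
    exact (h a (Finset.mem_insert_self _ _)).union
      (ih fun b hb => h b (Finset.mem_insert_of_mem hb))

theorem null_iUnion {ι : Type} [Fintype ι] (V : ι → Set ℕ) (h : ∀ a, Null (V a)) :
    Null (⋃ a, V a) := by
  have := null_biUnion (Finset.univ : Finset ι) V fun a _ => h a
  simpa using this

/-- Dilation. -/
theorem Null.dilate {S : Set ℕ} (hS : Null S) {q : ℕ} (hq : 0 < q) : Null {z | z * q ∈ S} := by
  intro k
  obtain ⟨ι, _, hι, f, hf, hm⟩ := hS k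
  refine ⟨ι, inferInstance, hι, f, hf, fun m hmp => ?_⟩
  have := hm (m * q) (Nat.mul_pos hmp hq)
  have e : {i : ι // m * f i ∈ {z | z * q ∈ S}} = {i : ι // m * q * f i ∈ S} := by
    have h : ∀ i, (m * f i ∈ {z | z * q ∈ S}) = (m * q * f i ∈ S) := fun i => by
      rw [Set.mem_ofPred_eq, mul_right_comm]
    simp only [h]
  rw [e]; exact this

/-- The multiples of `q` whose quotient is in `S`. -/
theorem Null.mulLeft {S : Set ℕ} (hS : Null S) {q : ℕ} (hq : 0 < q) :
    Null {z | q ∣ z ∧ z / q ∈ S} := by
  intro k
  obtain ⟨ι, _, hι, f, hf, hm⟩ := hS k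
  refine ⟨ι, inferInstance, hι, fun i => q * f i, fun i => Nat.mul_pos hq (hf i), fun m hmp => ?_⟩
  have := hm m hmp
  have e : {i : ι // m * (q * f i) ∈ {z | q ∣ z ∧ z / q ∈ S}} = {i : ι // m * f i ∈ S} := by
    have h : ∀ i, (m * (q * f i) ∈ {z | q ∣ z ∧ z / q ∈ S}) = (m * f i ∈ S) := fun i => by
      have h1 : m * (q * f i) = q * (m * f i) := by ring
      rw [Set.mem_ofPred_eq, h1, Nat.mul_div_cancel_left _ hq]
      simp
    simp only [h]
  rw [e]; exact this

theorem null_notDvd {q : ℕ} (hq : 0 < q) : Null {z | ¬ q ∣ z} := by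
  intro k
  refine ⟨Unit, inferInstance, inferInstance, fun _ => q, fun _ => hq, fun m _ => ?_⟩
  simp

/-- The history `[m 1, ..., m i]`. -/
def hist (m : ℕ → ℕ) (i : ℕ) : List ℕ := (List.range i).map fun t => m (t + 1)

theorem exists_seq (r : ℕ) : ∀ V : List ℕ → Set ℕ, (∀ l, Null (V l)) →
    ∃ m : ℕ → ℕ, m 0 = 0 ∧ (∀ i < r, m i < m (i + 1)) ∧
      ∀ i j, i < j → j ≤ r → m j - m i ∉ V (hist m i) := by
  induction r with
  | zero =>
    intro V _
    exact ⟨fun i => i, rfl, fun i hi => absurd hi (Nat.not_lt_zero _),
      fun i j hij hj => by omega⟩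
  | succ r ih =>
    intro V hV
    classical
    obtain ⟨ι, _, hι, f, hf, hfm⟩ := hV [] (r + 1)
    let V' : List ℕ → Set ℕ := fun l =>
      ⋃ i : ι, {z | z * f i ∈ V (f i :: l.map fun x => (1 + x) * f i)}
    obtain ⟨z, hz0, hz1, hz2⟩ := ih V' fun l => null_iUnion _ fun i => (hV _).dilate (hf i)
    have hex : ∃ i : ι, ∀ j ∈ Finset.range (r + 1), (1 + z j) * f i ∉ V [] := by
      by_contra hcon
      push Not at hcon
      have hcov : (Finset.univ : Finset ι) ⊆ (Finset.range (r + 1)).biUnion
          fun j => {i : ι | (1 + z j) * f i ∈ V []} := by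
        intro i _
        obtain ⟨j, hj1, hj2⟩ := hcon i
        exact Finset.mem_biUnion.2 ⟨j, hj1, by simpa using hj2⟩
      have h1 := Finset.card_le_card hcov
      have h2 := h1.trans Finset.card_biUnion_le
      have h3 : (r + 1 + 1) * Fintype.card ι ≤ (r + 1) * Fintype.card ι := by
        calc (r + 1 + 1) * Fintype.card ι
            ≤ (r + 1 + 1) * ∑ j ∈ Finset.range (r + 1),
                #{i : ι | (1 + z j) * f i ∈ V []} := Nat.mul_le_mul_left _ h2
          _ = ∑ j ∈ Finset.range (r + 1),
                (r + 1 + 1) * #{i : ι | (1 + z j) * f i ∈ V []} := by rw [Finset.mul_sum]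
          _ ≤ ∑ _j ∈ Finset.range (r + 1), Fintype.card ι := by
              refine Finset.sum_le_sum fun j _ => ?_
              have := hfm (1 + z j) (by omega)
              rwa [Nat.card_eq_fintype_card, Fintype.card_subtype] at this
          _ = (r + 1) * Fintype.card ι := by simp
      have h4 : 0 < Fintype.card ι := Fintype.card_pos
      nlinarith
    obtain ⟨i₀, hi₀⟩ := hex
    set t := f i₀ with ht
    have htp : 0 < t := hf i₀
    refine ⟨fun n => Nat.casesOn n 0 fun k => (1 + z k) * t, rfl, ?_, ?_⟩
    · intro i hi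
      cases i with
      | zero => simp; omega
      | succ i =>
        have := hz1 i (by omega)
        show (1 + z i) * t < (1 + z (i + 1)) * t
        exact Nat.mul_lt_mul_of_pos_right (by omega) htp
    · intro i j hij hj
      cases j with
      | zero => omega
      | succ j =>
        cases i with
        | zero =>
          have := hi₀ j (Finset.mem_range.2 (by omega))
          simpa [hist] using this
        | succ i =>
          have h := hz2 i j (by omega) (by omega)
          intro hcon
          apply h
          refine Set.mem_iUnion.2 ⟨i₀, ?_⟩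
          show (z j - z i) * f i₀ ∈ V (f i₀ :: (hist z i).map fun x => (1 + x) * f i₀)
          have e1 : (1 + z j) * t - (1 + z i) * t = (z j - z i) * f i₀ := by
            rw [← Nat.sub_mul, ht]
            congr 1
            omega
          have e2 : hist (fun n => Nat.casesOn n 0 fun k => (1 + z k) * t) (i + 1) =
              f i₀ :: (hist z i).map fun x => (1 + x) * f i₀ := by
            unfold hist
            rw [List.range_succ_eq_map, List.map_cons, List.map_map, List.map_map]
            congr 1
            · show (1 + z 0) * t = f i₀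
              rw [hz0, ht]; ring
          have hcon' : (1 + z j) * t - (1 + z i) * t ∈
              V (hist (fun n => Nat.casesOn n 0 fun k => (1 + z k) * t) (i + 1)) := hcon
          rw [e1, e2] at hcon'
          exact hcon'

theorem hist_getLastD (m : ℕ → ℕ) (h0 : m 0 = 0) (i : ℕ) : (hist m i).getLastD 0 = m i := by
  cases i with
  | zero => simp [hist, h0]
  | succ i => simp [hist, List.range_succ]

/-- Long chains of divisors whose quotients are not in `S + 1`. -/
theorem exists_chain {S : Set ℕ} (hS : Null S) (r : ℕ) :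
    ∃ y : ℕ → ℕ, (∀ i, 0 < y i) ∧ ∀ i j, i < j → j ≤ r →
      ∃ b, 0 < b ∧ b ∉ S ∧ y j = y i * (b + 1) := by
  obtain ⟨m, h0, h1, h2⟩ := exists_seq r
    (fun l => {z | ¬ (1 + l.getLastD 0) ∣ z} ∪ {z | (1 + l.getLastD 0) ∣ z ∧ z / (1 + l.getLastD 0) ∈ S})
    (fun l => (null_notDvd (Nat.add_pos_left Nat.one_pos _)).union
      (hS.mulLeft (Nat.add_pos_left Nat.one_pos _)))
  refine ⟨fun i => 1 + m i, fun i => Nat.add_pos_left Nat.one_pos _, fun i j hij hj => ?_⟩
  have h := h2 i j hij hj
  rw [hist_getLastD m h0] at h
  have hmono : ∀ i j, i < j → j ≤ r → m i < m j := by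
    intro i j hij hj
    induction j with
    | zero => omega
    | succ j ih =>
      rcases Nat.lt_succ_iff_lt_or_eq.1 hij with h | h
      · exact (ih h (by omega)).trans (h1 j (by omega))
      · subst h; exact h1 i (by omega)
  have hlt := hmono i j hij hj
  simp only [Set.mem_union, Set.mem_ofPred_eq, not_or, not_not, not_and] at h
  obtain ⟨hd, hn⟩ := h
  refine ⟨(m j - m i) / (1 + m i), ?_, hn hd, ?_⟩
  · exact Nat.div_pos (Nat.le_of_dvd (by omega) hd) (by omega)
  · obtain ⟨q, hq⟩ := hd
    rw [hq, Nat.mul_div_cancel_left _ (by omega)]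
    have : m j = m i + (1 + m i) * q := by omega
    show 1 + m j = (1 + m i) * (q + 1)
    rw [this]; ring

/-- End-homogeneous sets. -/
theorem endHom (k : ℕ) (c : ℕ → ℕ → Fin k) (n : ℕ) : ∀ A : Finset ℕ, (k + 1) ^ n ≤ #A →
    ∃ B ⊆ A, #B = n ∧ ∃ d : ℕ → Fin k, ∀ i ∈ B, ∀ j ∈ B, i < j → c i j = d i := by
  induction n with
  | zero =>
    intro A hA
    have : A.Nonempty := by
      rw [← Finset.card_pos]; simpa using hA
    obtain ⟨x, _⟩ := this
    exact ⟨∅, by simp, rfl, fun i => c i i, by simp⟩
  | succ n ih =>
    intro A hA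
    have hpos : 0 < (k + 1) ^ n := by positivity
    have hne : A.Nonempty := by
      rw [← Finset.card_pos]
      exact lt_of_lt_of_le (by positivity) hA
    set x := A.min' hne with hx
    have hxA : x ∈ A := A.min'_mem hne
    rcases Nat.eq_zero_or_pos k with hk | hk
    · subst hk; exact (c 0 0).elim0
    have hcard : k * (k + 1) ^ n ≤ #(A.erase x) := by
      rw [Finset.card_erase_of_mem hxA]
      have : (k + 1) ^ (n + 1) = k * (k + 1) ^ n + (k + 1) ^ n := by ring
      omega
    have : Nonempty (Fin k) := ⟨⟨0, hk⟩⟩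
    obtain ⟨e, _, he⟩ := Finset.exists_le_card_fiber_of_mul_le_card_of_maps_to
      (s := A.erase x) (t := (Finset.univ : Finset (Fin k))) (f := fun y => c x y)
      (n := (k + 1) ^ n) (fun _ _ => Finset.mem_univ _) Finset.univ_nonempty
      (by simpa using hcard)
    obtain ⟨B, hBA, hB, d, hd⟩ := ih _ he
    have hxB : x ∉ B := fun h => by
      have := hBA h
      simp at this
    refine ⟨insert x B, ?_, ?_, Function.update d x e, ?_⟩
    · intro z hz
      rcases Finset.mem_insert.1 hz with h | h
      · rw [h]; exact hxA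
      · have := hBA h
        simp only [Finset.mem_filter, Finset.mem_erase] at this
        exact this.1.2
    · rw [Finset.card_insert_of_notMem hxB, hB]
    · intro i hi j hj hij
      rcases Finset.mem_insert.1 hi with h | h
      · subst h
        rcases Finset.mem_insert.1 hj with h' | h'
        · omega
        · have := hBA h'
          simp only [Finset.mem_filter] at this
          simp [this.2]
      · have hix : i ≠ x := fun h' => hxB (h' ▸ h)
        rcases Finset.mem_insert.1 hj with h' | h'
        · exfalso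
          have h3 := hBA h
          simp only [Finset.mem_filter, Finset.mem_erase] at h3
          have := A.min'_le i h3.1.2
          omega
        · rw [Function.update_of_ne hix]
          exact hd i h j h' hij

/-- The theorem of Ramsey for pairs. -/
theorem ramsey (k n : ℕ) : ∃ R : ℕ, ∀ c : ℕ → ℕ → Fin k,
    ∃ (e : Fin k) (B : Finset ℕ), #B = n ∧ (∀ i ∈ B, i < R) ∧
      ∀ i ∈ B, ∀ j ∈ B, i < j → c i j = e := by
  refine ⟨(k + 1) ^ (k * n), fun c => ?_⟩
  obtain ⟨B, hBA, hB, d, hd⟩ := endHom k c (k * n) (Finset.range ((k + 1) ^ (k * n))) (by simp)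
  rcases Nat.eq_zero_or_pos k with hk | hk
  · subst hk; exact (c 0 0).elim0
  have : Nonempty (Fin k) := ⟨⟨0, hk⟩⟩
  obtain ⟨e, _, he⟩ := Finset.exists_le_card_fiber_of_mul_le_card_of_maps_to
    (s := B) (t := (Finset.univ : Finset (Fin k))) (f := d)
    (n := n) (fun _ _ => Finset.mem_univ _) Finset.univ_nonempty
    (by simp [hB])
  obtain ⟨B', hB', hcard⟩ := Finset.exists_subset_card_eq he
  refine ⟨e, B', hcard, ?_, ?_⟩
  · intro i hi
    have := hBA (Finset.mem_filter.1 (hB' hi)).1
    simpa using this
  · intro i hi j hj hij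
    have h1 := Finset.mem_filter.1 (hB' hi)
    have h2 := Finset.mem_filter.1 (hB' hj)
    rw [hd i h1.1 j h2.1 hij, h1.2]

/-- The pattern `a, b, a (b + 1)` is partition regular. -/
theorem main (r : ℕ) (c : ℕ → Fin r) :
    ∃ a b : ℕ, 0 < a ∧ 0 < b ∧ c a = c b ∧ c a = c (a * (b + 1)) := by
  classical
  -- the null colours
  set S : Set ℕ := ⋃ l ∈ (Finset.univ.filter fun l : Fin r => Null {x | c x = l}), {x | c x = l}
    with hS
  have hSnull : Null S := null_biUnion _ _ fun l hl => (Finset.mem_filter.1 hl).2
  -- the thresholds of the other colours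
  have hthr : ∀ l : Fin r, ∃ k : ℕ, ¬ Null {x | c x = l} →
      ∀ (ι : Type) [Fintype ι] [Nonempty ι] (f : ι → ℕ), (∀ i, 0 < f i) →
        ∃ m : ℕ, 0 < m ∧ Fintype.card ι < (k + 1) * Nat.card {i : ι // m * f i ∈ {x | c x = l}} := by
    intro l
    by_cases h : Null {x | c x = l}
    · exact ⟨0, fun h' => absurd h h'⟩
    · unfold Null at h
      push Not at h
      obtain ⟨k, hk⟩ := h
      refine ⟨k, fun _ ι _ _ f hf => ?_⟩
      exact hk ι inferInstance inferInstance f hf
  choose k hk using hthr
  set K := ∑ l, k l with hK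
  have hkK : ∀ l, k l ≤ K := fun l => Finset.single_le_sum (fun _ _ => Nat.zero_le _)
    (Finset.mem_univ l)
  obtain ⟨R, hR⟩ := ramsey r (K + 2)
  obtain ⟨y, hy0, hy⟩ := exists_chain hSnull R
  have hy' : ∀ i j, ∃ b, i < j → j ≤ R → 0 < b ∧ b ∉ S ∧ y j = y i * (b + 1) := by
    intro i j
    by_cases h : i < j ∧ j ≤ R
    · obtain ⟨b, hb⟩ := hy i j h.1 h.2
      exact ⟨b, fun _ _ => hb⟩
    · exact ⟨0, fun h1 h2 => absurd ⟨h1, h2⟩ h⟩
  choose b hb using hy'
  obtain ⟨e, B, hBcard, hBR, hBe⟩ := hR fun i j => c (b i j)
  -- the colour `e` is not null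
  have hBne : ∃ i ∈ B, ∃ j ∈ B, i < j := by
    have : 1 < #B := by omega
    obtain ⟨i, hi, j, hj, hij⟩ := Finset.one_lt_card.1 this
    rcases lt_or_gt_of_ne hij with h | h
    · exact ⟨i, hi, j, hj, h⟩
    · exact ⟨j, hj, i, hi, h⟩
  have hnull : ¬ Null {x | c x = e} := by
    intro hcon
    obtain ⟨i, hi, j, hj, hij⟩ := hBne
    have h1 := (hb i j hij (hBR j hj).le).2.1
    apply h1
    rw [hS]
    refine Set.mem_biUnion (x := e) ?_ ?_
    · simpa using hcon
    · exact hBe i hi j hj hij
  have : Nonempty B := by
    obtain ⟨i, hi, _⟩ := hBne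
    exact ⟨⟨i, hi⟩⟩
  obtain ⟨m, hm, hmc⟩ := hk e hnull B (fun i => y i.1) fun i => hy0 _
  rw [Fintype.card_coe, hBcard] at hmc
  have h2 : 1 < Nat.card {i : B // m * y i.1 ∈ {x | c x = e}} := by
    by_contra hcon
    have := hkK e
    have h3 : (k e + 1) * Nat.card {i : B // m * y i.1 ∈ {x | c x = e}} ≤ (K + 1) * 1 :=
      Nat.mul_le_mul (by omega) (by omega)
    omega
  rw [Nat.card_eq_fintype_card, Fintype.one_lt_card_iff] at h2
  obtain ⟨⟨⟨i, hi⟩, hi'⟩, ⟨⟨j, hj⟩, hj'⟩, hne⟩ := h2
  have hij : i ≠ j := by
    intro h; apply hne; subst h; rfl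
  wlog hlt : i < j generalizing i j
  · exact this j hj hj' i hi hi' (fun h => hij (by
      have := congrArg (fun z => z.1.1) h
      exact this.symm)) (Ne.symm hij) (lt_of_le_of_ne (not_lt.1 hlt) (Ne.symm hij))
  obtain ⟨hb0, _, hb2⟩ := hb i j hlt (hBR j hj).le
  refine ⟨m * y i, b i j, Nat.mul_pos hm (hy0 i), hb0, ?_, ?_⟩
  · have h1 : c (m * y i) = e := hi'
    rw [h1]; exact (hBe i hi j hj hlt).symm
  · have h1 : c (m * y i) = e := hi'
    have h2 : c (m * y j) = e := hj'
    rw [h1, ← h2, hb2, mul_assoc]

end Pool.Agent.L7h16.TransProd
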